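import Pool.Agent.H66.AV.TF
import Pool.Agent.H66.IP.TC

/-!
# Protocols which are not better than guessing: row FMX (finitely many requirements)
-/

set_option autoImplicit false

namespace Pool.Agent.H10.AVH

open Finset Pool.Agent.H70.OQ
open Pool.Agent.H70.EH hiding T_NUM
open Pool.Agent.H78.XQ hiding T_POW T_SUM
open Pool.Agent.H6.NB hiding sg T_NUM
open Pool.Agent.H70.EI hiding T_AST
open Pool.Agent.H66.IP (Local ins sp dm Good IsZ scl mBp m0p)
open Pool.Agent.H66.IQ
open Pool.Agent.H66.AV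

/-- hidden choices exist -/
theorem fmx_hid (X : Type) (Y : ℕ → Type) [∀ i, Nonempty (Y i)] :
    ∀ k : ℕ, Nonempty (Hid X Y k)
  | 0 => ⟨()⟩
  | k + 1 => by
    obtain ⟨h⟩ := fmx_hid X Y k
    exact ⟨(h, fun _ => Classical.arbitrary _)⟩

theorem fmx_za (M : ℕ) : Nonempty (Za M) := by
  refine ⟨fun t _ => ?_⟩
  exact (false, Classical.choice (fmx_hid (Fin t.2.1 → Bool) (Ys t.2.1) t.1.1), fun _ => false)

/-- a geometric sum in blocks of length `100` -/
theorem fmx_geo (a M : ℕ) (h : 100 * a ≤ M) :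
    ∑ n ∈ Ico (100 * a) M, (1 / 2 : ℝ) ^ (n / 100) =
      200 * (1 / 2) ^ a - (200 - ((M % 100 : ℕ) : ℝ)) * (1 / 2) ^ (M / 100) := by
  induction M, h using Nat.le_induction with
  | base =>
    rw [Ico_self, sum_empty, Nat.mul_mod_right, Nat.mul_div_cancel_left a (by norm_num)]
    push_cast
    ring
  | succ M h ih =>
    rw [Finset.sum_Ico_succ_top h, ih]
    by_cases h1 : M % 100 = 99
    · have h2 : (M + 1) / 100 = M / 100 + 1 := by omega
      have h3 : (M + 1) % 100 = 0 := by omega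
      rw [h2, h3, h1, pow_succ]
      push_cast
      ring
    · have h2 : (M + 1) / 100 = M / 100 := by omega
      have h3 : (M + 1) % 100 = M % 100 + 1 := by omega
      rw [h2, h3]
      push_cast
      ring

theorem fmx_geo' (a M : ℕ) : ∑ n ∈ Ico (100 * a) M, (1 / 2 : ℝ) ^ (n / 100) ≤
    200 * (1 / 2) ^ a := by
  by_cases h : 100 * a ≤ M
  · rw [fmx_geo a M h]
    have h1 : ((M % 100 : ℕ) : ℝ) ≤ 200 := by
      have : M % 100 ≤ 200 := by omega
      exact_mod_cast this
    have h2 : 0 ≤ (200 - ((M % 100 : ℕ) : ℝ)) * (1 / 2) ^ (M / 100) :=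
      mul_nonneg (by linarith) (by positivity)
    linarith
  · rw [Finset.Ico_eq_empty (by omega), Finset.sum_empty]
    positivity

theorem fmx_geo2 (M : ℕ) (N : ℕ → ℕ) (hN : ∀ j, 100 * (j + 12) ≤ N j) :
    ∑ j ∈ range M, ∑ n ∈ (range M).filter (fun n => N j ≤ n), (1 / 2 : ℝ) ^ (n / 100) ≤
      1 / 10 := by
  have h1 : ∀ j ∈ range M, ∑ n ∈ (range M).filter (fun n => N j ≤ n),
      (1 / 2 : ℝ) ^ (n / 100) ≤ 200 / 4096 * (1 / 2) ^ j := by
    intro j _
    have h2 : ∑ n ∈ (range M).filter (fun n => N j ≤ n), (1 / 2 : ℝ) ^ (n / 100) ≤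
        ∑ n ∈ Ico (100 * (j + 12)) M, (1 / 2 : ℝ) ^ (n / 100) := by
      refine Finset.sum_le_sum_of_subset_of_nonneg (fun n hn => ?_)
        fun n _ _ => by positivity
      rw [mem_filter, mem_range] at hn
      rw [mem_Ico]
      exact ⟨(hN j).trans hn.2, hn.1⟩
    refine h2.trans ((fmx_geo' (j + 12) M).trans (le_of_eq ?_))
    rw [pow_add]
    norm_num
    ring
  refine (Finset.sum_le_sum h1).trans ?_
  rw [← Finset.mul_sum]
  have h3 := sum_geometric_two_le M
  linarith

theorem pf_FMX (hSUM : T_SUM) (hALG : T_ALG) (hOVL : T_OVL) (hGZA : T_GZA)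
    (hISZ : Pool.Agent.H66.IP.T_ISZ) (hSPF : Pool.Agent.H66.IP.T_SPF) (hWMS : T_WMS) :
    T_FMX := by
  classical
  intro V G hG
  have hS := fun j => hSUM V (G j).1 (G j).2 (hG j)
  choose n₁ hn₁ using hS
  choose A C hAC using hn₁
  refine ⟨fun j => max (n₁ j) (100 * (j + 12)), fun M => ?_⟩
  set N : ℕ → ℕ := fun j => max (n₁ j) (100 * (j + 12)) with hN
  have hN1 : ∀ j, n₁ j ≤ N j := fun j => le_max_left _ _
  have hN2 : ∀ j, 100 * (j + 12) ≤ N j := fun j => le_max_right _ _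
  obtain ⟨_, _, _, _, _, s6⟩ := hSPF V
  set E : Finset (ℕ × List Bool) := (s6 M).toFinset with hE
  have hmem : ∀ p, p ∈ E ↔ (sp V p).length ≤ M := by
    intro p
    rw [hE, Set.Finite.mem_toFinset]
    rfl
  obtain ⟨OO, hOO⟩ := hISZ (dm V) E
  set M' : ℕ := M + ∑ i ∈ range M, (G i).1 + 1 with hM'
  have hk : ∀ j, j < M → (G j).1 < M' := by
    intro j hj
    have h1 : (G j).1 ≤ ∑ i ∈ range M, (G i).1 :=
      Finset.single_le_sum (f := fun i => (G i).1) (fun i _ => Nat.zero_le _) (mem_range.2 hj)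
    omega
  have hn : ∀ n, n < M → n < M' := fun n hn => by omega
  -- the test functions
  let D : ℕ → ℕ → Za M' → (∀ p : {a // a ∈ E}, CP (dm V) p.1) → ℝ := fun j n z P =>
    if h : n₁ j ≤ n ∧ j < M ∧ n < M then
      tst ((1 / 2) ^ (n / 64)) (A j n h.1) (C j n h.1)
        (fun T => OO P (ovl n (G j).1 (gza M' z) T)) (z (⟨(G j).1, hk j h.2.1⟩, ⟨n, hn n h.2.2⟩))
    else 0
  have hD0 : ∀ j n z P, 0 ≤ D j n z P := by
    intro j n z P
    by_cases h : n₁ j ≤ n ∧ j < M ∧ n < M
    · simp only [D, dif_pos h]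
      exact ((hAC j n h.1).1 _ _).1
    · simp only [D, dif_neg h]
      exact le_rfl
  have hD1 : ∀ j n, ∑ z : Za M', ∑ P, wgl V E OO (gza M' z) P * D j n z P ≤
      Fintype.card (Za M') * (1 / 2) ^ (n / 100) := by
    intro j n
    by_cases h : n₁ j ≤ n ∧ j < M ∧ n < M
    · simp only [D, dif_pos h]
      exact (hAC j n h.1).2 M' (hk j h.2.1) (hn n h.2.2) E OO hOO
    · simp only [D, dif_neg h, mul_zero, Finset.sum_const_zero]
      positivity
  have hcard : (0 : ℝ) < Fintype.card (Za M') := by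
    haveI := fmx_za M'
    exact_mod_cast Fintype.card_pos
  obtain ⟨z, P, hw, hDz⟩ : ∃ z P, 0 < wgl V E OO (gza M' z) P ∧
      ∑ j ∈ range M, ∑ n ∈ (range M).filter (fun n => N j ≤ n), D j n z P < 1 := by
    by_contra hcon
    push Not at hcon
    have h1 : ∀ z P, wgl V E OO (gza M' z) P ≤ wgl V E OO (gza M' z) P *
        ∑ j ∈ range M, ∑ n ∈ (range M).filter (fun n => N j ≤ n), D j n z P := by
      intro z P
      rcases ((hWMS V E OO hOO (gza M' z)).2.2.1 P).lt_or_eq with h2 | h2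
      · exact le_mul_of_one_le_right h2.le (hcon z P h2)
      · rw [← h2, zero_mul]
    have h3 : (Fintype.card (Za M') : ℝ) * (1 - (1 / 4) ^ 20) ≤
        ∑ z : Za M', ∑ P, wgl V E OO (gza M' z) P := by
      rw [← nsmul_eq_mul, ← Finset.card_univ, ← Finset.sum_const]
      exact Finset.sum_le_sum fun z _ => (hWMS V E OO hOO (gza M' z)).2.2.2
    have h4 : ∑ z : Za M', ∑ P, wgl V E OO (gza M' z) P ≤
        ∑ z : Za M', ∑ P, wgl V E OO (gza M' z) P *
          ∑ j ∈ range M, ∑ n ∈ (range M).filter (fun n => N j ≤ n), D j n z P :=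
      Finset.sum_le_sum fun z _ => Finset.sum_le_sum fun P _ => h1 z P
    have h5 : ∑ z : Za M', ∑ P, wgl V E OO (gza M' z) P *
          ∑ j ∈ range M, ∑ n ∈ (range M).filter (fun n => N j ≤ n), D j n z P =
        ∑ j ∈ range M, ∑ n ∈ (range M).filter (fun n => N j ≤ n),
          ∑ z : Za M', ∑ P, wgl V E OO (gza M' z) P * D j n z P := by
      have e1 : ∀ z P, wgl V E OO (gza M' z) P *
          ∑ j ∈ range M, ∑ n ∈ (range M).filter (fun n => N j ≤ n), D j n z P =
          ∑ j ∈ range M, ∑ n ∈ (range M).filter (fun n => N j ≤ n),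
            wgl V E OO (gza M' z) P * D j n z P := by
        intro z P
        rw [Finset.mul_sum]
        exact Finset.sum_congr rfl fun j _ => Finset.mul_sum _ _ _
      rw [Finset.sum_congr rfl fun z _ => Finset.sum_congr rfl fun P _ => e1 z P]
      rw [Finset.sum_congr rfl fun z _ => Finset.sum_comm, Finset.sum_comm]
      refine Finset.sum_congr rfl fun j _ => ?_
      rw [Finset.sum_congr rfl fun z _ => Finset.sum_comm, Finset.sum_comm]
    have h6 : ∑ j ∈ range M, ∑ n ∈ (range M).filter (fun n => N j ≤ n),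
          ∑ z : Za M', ∑ P, wgl V E OO (gza M' z) P * D j n z P ≤
        Fintype.card (Za M') * (1 / 10) := by
      calc _ ≤ ∑ j ∈ range M, ∑ n ∈ (range M).filter (fun n => N j ≤ n),
            (Fintype.card (Za M') : ℝ) * (1 / 2) ^ (n / 100) :=
            Finset.sum_le_sum fun j _ => Finset.sum_le_sum fun n _ => hD1 j n
        _ = Fintype.card (Za M') * ∑ j ∈ range M, ∑ n ∈ (range M).filter (fun n => N j ≤ n),
            (1 / 2 : ℝ) ^ (n / 100) := by
            rw [Finset.mul_sum]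
            exact Finset.sum_congr rfl fun j _ => (Finset.mul_sum _ _ _).symm
        _ ≤ _ := mul_le_mul_of_nonneg_left (fmx_geo2 M N hN2) hcard.le
    have h7 := (h3.trans h4).trans (h5.le.trans h6)
    have h8 := le_of_mul_le_mul_left h7 hcard
    norm_num at h8
  have hDz' : ∀ j n, j < M → n < M → N j ≤ n → D j n z P < 1 := by
    intro j n hj hn' hNn
    refine lt_of_le_of_lt ?_ hDz
    have h1 : D j n z P ≤ ∑ n ∈ (range M).filter (fun n => N j ≤ n), D j n z P :=
      Finset.single_le_sum (f := fun n => D j n z P) (fun i _ => hD0 _ _ _ _)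
        (mem_filter.2 ⟨mem_range.2 hn', hNn⟩)
    exact h1.trans (Finset.single_le_sum
      (f := fun j => ∑ n ∈ (range M).filter (fun n => N j ≤ n), D j n z P)
      (fun i _ => Finset.sum_nonneg fun n _ => hD0 _ _ _ _) (mem_range.2 hj))
  refine ⟨OO P (gza M' z), fun p hp => ?_, fun j hj n hn' hNn => ?_⟩
  · have hpE : p ∈ E := (hmem p).2 hp
    have h2 : mBp V p (decide ((V p.1).acc p.2 (OO P (gza M' z)))) (P ⟨p, hpE⟩) ≠ 0 := by
      intro h0
      refine hw.ne' ?_
      unfold wgl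
      refine Finset.prod_eq_zero (Finset.mem_univ (⟨p, hpE⟩ : {a // a ∈ E})) ?_
      rw [← h0]
    unfold mBp mB at h2
    have h3 : OkB (qs (sp V p)) (sp V p).length (rns (sp V p)) (wln (sp V p))
        (decide ((V p.1).acc p.2 (OO P (gza M' z)))) (P ⟨p, hpE⟩) := by
      by_contra h4
      rw [if_neg h4] at h2
      exact h2 rfl
    unfold Good
    have h5 : (cps (OO P (gza M' z)) (sp V p), cst (OO P (gza M' z)) (sp V p)) = P ⟨p, hpE⟩ :=
      Prod.ext (hOO.blk P _ p hpE) (hOO.cor P _ p hpE)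
    rw [h5]
    exact h3
  · have h : n₁ j ≤ n ∧ j < M ∧ n < M := ⟨(hN1 j).trans hNn, hj, hn'⟩
    have h1 := hDz' j n hj hn' hNn
    simp only [D, dif_pos h] at h1
    set t : Fin M' × Fin M' := (⟨(G j).1, hk j h.2.1⟩, ⟨n, hn n h.2.2⟩) with ht
    have h2 : ovl n (G j).1 (gza M' z) (tbl (z t)) = gza M' z := by
      have h3 := hGZA M' z t (z t)
      rw [Function.update_eq_self] at h3
      exact h3.symm
    have h4 : ∀ x, List.ofFn x ∈ alang (G j).1
        ((fun T => OO P (ovl n (G j).1 (gza M' z) T)) (tbl (z t))) ↔ (z t x).1 = true := by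
      intro x
      refine hALG.1 n (G j).1 (z t) x _ fun q => ?_
      exact ((hOVL n (G j).1 (gza M' z)).2.2.2 V E OO hOO P).2 (tbl (z t)) x q
    have h5 := ((hAC j n h.1).1 (fun T => OO P (ovl n (G j).1 (gza M' z) T)) (z t)).2 h4 h1
    rw [h2] at h5
    exact h5

end Pool.Agent.H10.AVH
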