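import Pool.Agent.H66.AV.TF

/-!
# Protocols which are not better than guessing: row SUM (all tables at once)
-/

set_option autoImplicit false

namespace Pool.Agent.H10.AVH

open Finset Pool.Agent.H70.OQ
open Pool.Agent.H70.EH hiding T_NUM
open Pool.Agent.H78.XQ hiding T_POW T_SUM
open Pool.Agent.H6.NB hiding sg T_NUM
open Pool.Agent.H70.EI hiding T_AST
open Pool.Agent.H66.IP (Local ins sp dm Good IsZ scl mBp m0p)
open Pool.Agent.H66.IQ
open Pool.Agent.H66.AV

theorem sum_small_mono {k m m' : ℕ} (h : m ≤ m') : ∀ T : Exam k, T.Small m → T.Small m' := by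
  intro T
  induction T with
  | leaf b => exact fun _ => trivial
  | node M x l r hl hr => exact fun hT => ⟨hT.1.trans h, hl hT.2.1, hr hT.2.2⟩

theorem sum_bd_mono {k d d' s s' : ℕ} (hd : d ≤ d') (hs : s ≤ s') :
    ∀ G : Prot k, Bd d s G → Bd d' s' G := by
  intro G
  induction G with
  | test T => exact fun hG => ⟨hG.1.trans hd, sum_small_mono hs T hG.2⟩
  | coin l r hl hr => exact fun hG => ⟨hl hG.1, hr hG.2⟩
  | say l r hl hr => exact fun hG => ⟨hl hG.1, hr hG.2⟩

theorem sum_bd_tests {k m : ℕ} : ∀ G : Prot k, Bd m m G → G.Tests m := by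
  intro G
  induction G with
  | test T => exact fun hG => hG
  | coin l r hl hr => exact fun hG => ⟨hl hG.1, hr hG.2⟩
  | say l r hl hr => exact fun hG => ⟨hl hG.1, hr hG.2⟩

theorem sum_tests_bd {k m : ℕ} : ∀ G : Prot k, G.Tests m → Bd m m G := by
  intro G
  induction G with
  | test T => exact fun hG => hG
  | coin l r hl hr => exact fun hG => ⟨hl hG.1, hr hG.2⟩
  | say l r hl hr => exact fun hG => ⟨hl hG.1, hr hG.2⟩

theorem sum_val01 {k : ℕ} (O : List Bool → Bool) : ∀ G : Prot k, 0 ≤ G.val O ∧ G.val O ≤ 1 := by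
  intro G
  induction G with
  | test T =>
    show 0 ≤ (if T.eval O = true then (1 : ℝ) else 0) ∧ (if T.eval O = true then (1 : ℝ) else 0) ≤ 1
    split_ifs <;> norm_num
  | coin l r hl hr =>
    show 0 ≤ (l.val O + r.val O) / 2 ∧ (l.val O + r.val O) / 2 ≤ 1
    constructor <;> linarith [hl.1, hl.2, hr.1, hr.2]
  | say l r hl hr =>
    show 0 ≤ max (l.val O) (r.val O) ∧ max (l.val O) (r.val O) ≤ 1
    exact ⟨le_max_of_le_left hl.1, max_le hl.2 hr.2⟩

/-- each choice function is met equally often -/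
theorem sum_upd {ι : Type} [Fintype ι] [DecidableEq ι] {W : ι → Type} [∀ i, Fintype (W i)]
    (t : ι) (F : (∀ i, W i) → ℝ) :
    ∑ z : (∀ i, W i), ∑ c : W t, F (Function.update z t c) =
      (Fintype.card (W t) : ℝ) * ∑ z : (∀ i, W i), F z := by
  let e : ((∀ i, W i) × W t) ≃ ((∀ i, W i) × W t) :=
    { toFun := fun p => (Function.update p.1 t p.2, p.1 t)
      invFun := fun p => (Function.update p.1 t p.2, p.1 t)
      left_inv := fun p => by simp
      right_inv := fun p => by simp }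
  have h1 : ∑ z : (∀ i, W i), ∑ c : W t, F (Function.update z t c) =
      ∑ p : (∀ i, W i) × W t, F (Function.update p.1 t p.2) :=
    (Fintype.sum_prod_type (fun p : (∀ i, W i) × W t => F (Function.update p.1 t p.2))).symm
  have h2 : ∑ p : (∀ i, W i) × W t, F (Function.update p.1 t p.2) =
      ∑ p : (∀ i, W i) × W t, F p.1 :=
    Equiv.sum_comp e (fun p => F p.1)
  rw [h1, h2, Fintype.sum_prod_type, Finset.mul_sum]
  refine Finset.sum_congr rfl fun z _ => ?_
  show ∑ _y : W t, F z = _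
  rw [Finset.sum_const, Finset.card_univ, nsmul_eq_mul]

theorem pf_SUM (hAMP : T_AMP) (hPOW : T_POW) (hNUM : T_NUM) (hREQ : T_REQ) (hRCT : T_RCT)
    (hGZA : T_GZA) (hOVL : T_OVL) : T_SUM := by
  classical
  intro V k G hG
  obtain ⟨n₀, h0⟩ := hG
  obtain ⟨n₂, h2⟩ := hNUM
  obtain ⟨n₃, h3⟩ := hREQ V k
  refine ⟨n₀ + n₂ + n₃, fun n hn => ?_⟩
  obtain ⟨e1, e2, e3, e4⟩ := h2 n (by omega)
  set a : ℕ := n / 64 + n / 32 + 4 with ha
  set B : ℕ := 2 ^ (n / 32) with hB
  have hB1 : 1 ≤ B := Nat.one_le_two_pow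
  have hGW : ∀ x : Fin n → Bool, (G (List.ofFn x)).Within (2 ^ (n / 16)) := by
    intro x
    have h := h0 (List.ofFn x) (by rw [List.length_ofFn]; omega)
    rwa [List.length_ofFn] at h
  have hA : ∀ x : Fin n → Bool, ∃ G' : Prot k,
      G'.moves ≤ (2 * a + 1) * 4 ^ a * (G (List.ofFn x)).moves ∧
      (∀ d s, Bd d s (G (List.ofFn x)) → Bd ((2 * a + 1) * 4 ^ a * d) s G') ∧
      ∀ O, (2 / 3 ≤ (G (List.ofFn x)).val O → 1 - (1 / 2) ^ a ≤ G'.val O) ∧
        ((G (List.ofFn x)).val O ≤ 1 / 3 → G'.val O ≤ (1 / 2) ^ a) :=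
    fun x => hAMP k (G (List.ofFn x)) a (by omega)
  choose A hAm hAb hAv using hA
  have hC : ∀ x : Fin n → Bool, ∃ G' : Prot k, G'.moves ≤ B * (A x).moves ∧
      (∀ d s, Bd d s (A x) → Bd (B * d) s G') ∧
      ∀ O, 1 - G'.val O = (1 - (A x).val O) ^ B := fun x => (hPOW k (A x) B).2
  choose C hCm hCb hCv using hC
  have hs16 : 2 ^ (n / 16) ≤ 2 ^ (n / 6) := Nat.pow_le_pow_right (by norm_num) (by omega)
  have hs4 : 2 ^ (n / 16) ≤ 2 ^ (n / 4) := Nat.pow_le_pow_right (by norm_num) (by omega)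
  have hAB : ∀ x, Bd ((2 * a + 1) * 4 ^ a * 2 ^ (n / 16)) (2 ^ (n / 16)) (A x) :=
    fun x => hAb x _ _ (sum_tests_bd _ (hGW x).2)
  have hAW : ∀ x, (A x).Within (2 ^ (n / 6)) := fun x =>
    ⟨((hAm x).trans (Nat.mul_le_mul_left _ (hGW x).1)).trans e1,
      sum_bd_tests _ (sum_bd_mono e1 hs16 _ (hAB x))⟩
  have hCW : ∀ x, (C x).Within (2 ^ (n / 4)) := fun x =>
    ⟨((hCm x).trans (Nat.mul_le_mul_left _
        ((hAm x).trans (Nat.mul_le_mul_left _ (hGW x).1)))).trans e2,
      sum_bd_tests _ (sum_bd_mono e2 hs4 _ (hCb x _ _ (hAB x)))⟩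
  have hε : (0 : ℝ) < (1 / 2) ^ (n / 64) := by positivity
  refine ⟨A, C, fun Q z => ⟨?_, fun hQ ht => ?_⟩, fun M hk hn' E O hO => ?_⟩
  · unfold tst
    have h5 : 0 ≤ s1 A C Q z := by
      unfold s1
      refine Finset.sum_nonneg fun x _ => ?_
      split_ifs
      · exact mul_nonneg (sum_val01 _ _).1 (sub_nonneg.2 (sum_val01 _ _).2)
      · exact le_rfl
    have h6 : 0 ≤ 16 / (((1 / 2 : ℝ) ^ (n / 64)) ^ 2 * 4 ^ n) := by positivity
    have h7 : 0 ≤ 2 / ((1 / 2 : ℝ) ^ (n / 64) * 2 ^ n) := by positivity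
    exact add_nonneg (mul_nonneg h6 (sq_nonneg _)) (mul_nonneg h7 h5)
  · exact hRCT n k G A C a B _ hε e3 hAv hCv hB1 Q z hQ ht
  · set t : Fin M × Fin M := (⟨k, hk⟩, ⟨n, hn'⟩) with ht
    let F : Za M → ℝ := fun z => ∑ P, wgl V E O (gza M z) P *
        tst ((1 / 2) ^ (n / 64)) A C (fun T => O P (ovl n k (gza M z) T)) (z t)
    show ∑ z : Za M, F z ≤ Fintype.card (Za M) * (1 / 2) ^ (n / 100)
    by_cases hne : Nonempty (Za M)
    · obtain ⟨z₀⟩ := hne
      have hW : (0 : ℝ) < Fintype.card (Wn n k) := by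
        haveI : Nonempty (Wn n k) := ⟨z₀ t⟩
        exact_mod_cast Fintype.card_pos
      have h5 : ∀ z : Za M, ∑ c : Wn n k, F (Function.update z t c) ≤
          Fintype.card (Wn n k) * (1 / 2) ^ (n / 100) := by
        intro z
        have h6 : ∀ c : Wn n k, F (Function.update z t c) =
            ∑ P, wgl V E O (ovl n k (gza M z) (tbl c)) P *
              tst ((1 / 2) ^ (n / 64)) A C (fun T => O P (ovl n k (gza M z) T)) c := by
          intro c
          have h7 : gza M (Function.update z t c) = ovl n k (gza M z) (tbl c) := hGZA M z t c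
          have h8 : (Function.update z t c) t = c := Function.update_self t c z
          show ∑ P, wgl V E O (gza M (Function.update z t c)) P *
            tst ((1 / 2) ^ (n / 64)) A C
              (fun T => O P (ovl n k (gza M (Function.update z t c)) T))
              ((Function.update z t c) t) = _
          rw [h7, h8]
          refine Finset.sum_congr rfl fun P _ => ?_
          have h9 : (fun T => O P (ovl n k (ovl n k (gza M z) (tbl c)) T)) =
              fun T => O P (ovl n k (gza M z) T) := by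
            funext T
            rw [(hOVL n k (gza M z)).2.2.1 T (tbl c)]
          rw [h9]
        rw [Finset.sum_congr rfl fun c _ => h6 c]
        refine (h3 n (by omega) A C B hB1 hAW hCW hCv _ hε E O hO (gza M z)).trans ?_
        exact mul_le_mul_of_nonneg_left e4 (Nat.cast_nonneg _)
      have h6 : (Fintype.card (Wn n k) : ℝ) * ∑ z : Za M, F z ≤
          Fintype.card (Wn n k) * (Fintype.card (Za M) * (1 / 2) ^ (n / 100)) := by
        have h7 := sum_upd (W := fun t : Fin M × Fin M => Wn t.2.1 t.1.1) t F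
        calc (Fintype.card (Wn n k) : ℝ) * ∑ z : Za M, F z =
            ∑ z : Za M, ∑ c : Wn n k, F (Function.update z t c) := h7.symm
          _ ≤ ∑ _z : Za M, (Fintype.card (Wn n k) : ℝ) * (1 / 2 : ℝ) ^ (n / 100) :=
              Finset.sum_le_sum fun z _ => h5 z
          _ = _ := by
              rw [Finset.sum_const, Finset.card_univ, nsmul_eq_mul]
              ring
      exact le_of_mul_le_mul_left h6 hW
    · haveI : IsEmpty (Za M) := not_nonempty_iff.1 hne
      rw [Fintype.sum_empty, Fintype.card_of_isEmpty]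
      simp

end Pool.Agent.H10.AVH
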